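import Pool.Agent.H71.O2.Nuc
import Pool.Agent.H38.O2.Main

set_option autoImplicit false

/-!
The end game of case O1: if `th(a, b)` fixes `b` for all `a, b` in a finite simple automorphic loop
of odd order, then the loop has the inverse property, is Moufang, and all commutators are nuclear;
so it is associative (or commutative, and then associative by case O2).
-/

namespace ALoop

open Equiv

variable {Q : Type*} {G : Subgroup (Perm Q)} {L : Q → Perm Q} {J : Perm Q} {e : Q}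

/-- `A(q, b) = L_(qb)⁻¹ L_q L_b` -/
def Aq (L : Q → Perm Q) (q b : Q) : Perm Q := (L (L q b))⁻¹ * L q * L b

namespace AL0

theorem hmul (h : AL0 G L J e) {g : Perm Q} (hg : g ∈ G) (he : g e = e) (x y : Q) :
    g (L x y) = L (g x) (g y) := by
  rw [← h.equi g hg he x, Perm.mul_apply, Perm.mul_apply, inv_apply']

theorem Aq_mem (h : AL0 G L J e) (q b : Q) : Aq L q b ∈ G :=
  G.mul_mem (G.mul_mem (G.inv_mem (h.memL _)) (h.memL _)) (h.memL _)

theorem Aq_e (h : AL0 G L J e) (q b : Q) : Aq L q b e = e := by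
  unfold Aq
  rw [Perm.mul_apply, Perm.mul_apply, h.Le, Perm.inv_eq_iff_eq, h.Le]

theorem flexx (h : AL0 G L J e) (y z : Q) : L y (L z y) = L (L y z) y := by
  have h1 := congrArg (fun f : Perm Q => f z) (h.flex y)
  simp only [Perm.mul_apply] at h1
  rw [h.Rt_app, h.Rt_app] at h1
  exact h1

theorem Aq_q (h : AL0 G L J e) (q b : Q) : Aq L q b q = q := by
  unfold Aq
  rw [Perm.mul_apply, Perm.mul_apply, Perm.inv_eq_iff_eq, h.flexx]

theorem Th_app (h : AL0 G L J e) (a b x : Q) :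
    L a (L x b) = L (L a (Th L J a b x)) b := by
  have h1 : Rt L J b (L a (Th L J a b x)) = L a (Rt L J b x) := by
    unfold Th
    simp only [Perm.mul_apply]
    rw [apply_inv', apply_inv']
  rw [h.Rt_app, h.Rt_app] at h1
  exact h1.symm

variable (h : AL0 G L J e) (hK : ∀ a b, Th L J a b b = b)
include h hK

theorem ralt (q b : Q) : L (L q b) b = L q (L b b) := by
  have := h.Th_app q b b
  rw [hK] at this
  exact this.symm

theorem Aq_b (q b : Q) : Aq L q b b = b := by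
  unfold Aq
  rw [Perm.mul_apply, Perm.mul_apply, Perm.inv_eq_iff_eq, h.ralt hK]

/-- `μ_b = 1` -/
theorem mu_one (b : Q) : Rt L J b * Rt L J (J b) = 1 := by
  have hme : (Rt L J b * Rt L J (J b)) e = e := by
    rw [Perm.mul_apply, h.Rt_e, h.Rt_app, h.JL]
  have hmG : Rt L J b * Rt L J (J b) ∈ G := G.mul_mem (h.memR _) (h.memR _)
  have key : ∀ a, (Rt L J b * Rt L J (J b)) * L a = L a * (Rt L J b * Rt L J (J b)) := by
    intro a
    obtain ⟨t, ht⟩ : ∃ t, t = Th L J a b := ⟨_, rfl⟩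
    have htG : t ∈ G := by rw [ht]; exact h.Th_mem a b
    have hte : t e = e := by rw [ht]; exact h.Th_e a b
    have htb : t b = b := by rw [ht]; exact hK a b
    have c1 : t * Rt L J b = Rt L J b * t := h.comR htG hte htb
    have c2 : t * Rt L J (J b) = Rt L J (J b) * t := h.comR htG hte (h.fixJ htG hte htb)
    have c3 : t * L b = L b * t := h.comL htG hte htb
    have c4 : t * Tx L J b = Tx L J b * t := by
      have c5 : t * (Rt L J b)⁻¹ = (Rt L J b)⁻¹ * t := by
        rw [mul_inv_eq_iff_eq_mul, mul_assoc, c1]; group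
      unfold Tx
      calc t * (L b * (Rt L J b)⁻¹) = (t * L b) * (Rt L J b)⁻¹ := by group
        _ = L b * (t * (Rt L J b)⁻¹) := by rw [c3]; group
        _ = _ := by rw [c5]; group
    have hk1 : (Th L J a (J b))⁻¹ = t := by
      have h1 := h.K1 a b
      rw [← ht, c4] at h1
      exact mul_left_cancel h1
    -- `R_b L_a = L_a R_b t⁻¹`
    have e1 : Rt L J b * L a = L a * (Rt L J b * t⁻¹) := by
      rw [ht]; unfold Th; group
    have e2 : Rt L J (J b) * L a = L a * (Rt L J (J b) * t) := by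
      rw [← hk1]; unfold Th; group
    calc Rt L J b * Rt L J (J b) * L a = Rt L J b * (Rt L J (J b) * L a) := by group
      _ = (Rt L J b * L a) * (Rt L J (J b) * t) := by rw [e2]; group
      _ = L a * (Rt L J b * t⁻¹) * (t * Rt L J (J b)) := by rw [e1, c2]
      _ = _ := by group
  ext a
  have h1 := congrArg (fun p : Perm Q => p e) (key a)
  simp only [Perm.mul_apply] at h1
  have h2 : (Rt L J b) ((Rt L J (J b)) e) = e := by
    have := hme; rwa [Perm.mul_apply] at this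
  rw [h2, h.Le] at h1
  rw [Perm.mul_apply, h1]; rfl

theorem RJinv (b : Q) : Rt L J (J b) = (Rt L J b)⁻¹ :=
  eq_inv_of_mul_eq_one_right (h.mu_one hK b)

theorem LJinv (b : Q) : L (J b) = (L b)⁻¹ := by
  have h1 : L (J b) = J * Rt L J b * J := (h.JRJ b).symm
  have h2 : Rt L J (J b) = J * L b * J := (h.JLJ b).symm
  have h3 := h.RJinv hK b
  have h4 : Rt L J b = J * (L b)⁻¹ * J := by
    have h5 : Rt L J b = (Rt L J (J b))⁻¹ := by rw [h3, inv_inv]
    rw [h5, h2, mul_inv_rev, mul_inv_rev, h.Jinv]; group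
  rw [h1, h4]
  calc J * (J * (L b)⁻¹ * J) * J = (J * J) * (L b)⁻¹ * (J * J) := by group
    _ = _ := by rw [h.JJ1]; group

theorem Th_a (a b : Q) : Th L J a b a = a := by
  obtain ⟨t, ht⟩ : ∃ t, t = Th L J a b := ⟨_, rfl⟩
  have htG : t ∈ G := by rw [ht]; exact h.Th_mem a b
  have hte : t e = e := by rw [ht]; exact h.Th_e a b
  have h1 : Th L J (J a) b = L a * t⁻¹ * (L a)⁻¹ := by
    rw [ht]; unfold Th; rw [h.LJinv hK]; group
  have h2 := h.Th_e (J a) b
  rw [h1, Perm.mul_apply, Perm.mul_apply, h.L_inv_e] at h2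
  have h3 : t⁻¹ (J a) = J a := by
    have h4 : (L a) (t⁻¹ (J a)) = L a (J a) := by rw [h2, h.LJ]
    exact (L a).injective h4
  have h5 : t (J a) = J a := by
    rw [Perm.inv_eq_iff_eq] at h3
    exact h3.symm
  have h6 := h.fixJ htG hte h5
  rw [h.JJ] at h6
  rw [← ht]; exact h6

/-- left alternative law -/
theorem lalt (a b : Q) : L (L a a) b = L a (L a b) := by
  have := h.Th_app a b a
  rw [h.Th_a hK] at this
  exact this.symm

theorem Lsq (a : Q) : L (L a a) = L a * L a := by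
  ext b; rw [h.lalt hK]; rfl

theorem Rinv_app (w y : Q) : L (L w (J y)) y = w := by
  have h1 := h.RJinv hK y
  have h2 : Rt L J y (Rt L J (J y) w) = w := by rw [h1, apply_inv']
  rwa [h.Rt_app, h.Rt_app] at h2

theorem Rinv_app' (w y : Q) : L (L w y) (J y) = w := by
  have := h.Rinv_app hK w (J y)
  rwa [h.JJ] at this

theorem Linv_app (q y : Q) : L (J q) (L q y) = y := by
  rw [h.LJinv hK, inv_apply']

/-- `A(q,b) y = th(q, (qb)⁻¹ y) y` -/
theorem Aq_Th (q b y : Q) :
    Aq L q b y = Th L J q ((L (L q b))⁻¹ y) y := by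
  obtain ⟨x, hx⟩ : ∃ x, x = (L (L q b))⁻¹ y := ⟨_, rfl⟩
  have hy : y = L (L q b) x := by rw [hx, apply_inv']
  have h1 : Aq L q b y = L q (L b x) := by
    have h2 : Aq L q b (L q b) = L q b := by
      rw [h.hmul (h.Aq_mem q b) (h.Aq_e q b), h.Aq_q, h.Aq_b hK]
    rw [hy, h.hmul (h.Aq_mem q b) (h.Aq_e q b), h2]
    unfold Aq
    rw [Perm.mul_apply, Perm.mul_apply, apply_inv']
  have h3 : Th L J q x y = L q (L b x) := by
    rw [hy, h.hmul (h.Th_mem q x) (h.Th_e q x), h.hmul (h.Th_mem q x) (h.Th_e q x), h.Th_a hK,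
      hK, ← h.Th_app]
  rw [← hx, h1, h3]

theorem Jmul (q b : Q) : L b (J (L q b)) = J q := by
  rw [h.aaip]
  have := h.Linv_app hK (J b) (J q)
  rwa [h.JJ] at this

theorem Aq_rot (q b : Q) : Aq L b (J (L q b)) = Aq L q b := by
  have h1 : Aq L q b * L (L q b) = L (L q b) * Aq L q b := by
    refine h.comL (h.Aq_mem q b) (h.Aq_e q b) ?_
    rw [h.hmul (h.Aq_mem q b) (h.Aq_e q b), h.Aq_q, h.Aq_b hK]
  have h2 : Aq L b (J (L q b)) = L q * L b * (L (L q b))⁻¹ := by
    unfold Aq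
    rw [h.Jmul hK, h.LJinv hK, h.LJinv hK, inv_inv]
  have h3 : L q * L b = L (L q b) * Aq L q b := by unfold Aq; group
  rw [h2, h3, ← h1]; group

/-- `A(q,b) y = th(b, q y) y` -/
theorem P5 (q b y : Q) : Aq L q b y = Th L J b (L q y) y := by
  rw [← h.Aq_rot hK, h.Aq_Th hK b (J (L q b)) y, h.Jmul hK, h.LJinv hK, inv_inv]

/-- `th(b,w) y = A(w y⁻¹, b) y` -/
theorem P7 (b w y : Q) : Th L J b w y = Aq L (L w (J y)) b y := by
  rw [h.P5 hK, h.Rinv_app hK]

theorem P8 (b w y : Q) : Th L J b w y = Aq L (L w y) b y := by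
  have h1 := h.P7 hK b w (J y)
  rw [h.JJ] at h1
  have h2 : Th L J b w (J y) = J (Th L J b w y) := by
    have := congrArg (fun p : Perm Q => p y) (h.comJ _ (h.Th_mem b w) (h.Th_e b w))
    simpa only [Perm.mul_apply] using this
  have h3 : Aq L (L w y) b (J y) = J (Aq L (L w y) b y) := by
    have := congrArg (fun p : Perm Q => p y) (h.comJ _ (h.Aq_mem (L w y) b) (h.Aq_e (L w y) b))
    simpa only [Perm.mul_apply] using this
  rw [h2, h3] at h1
  exact J.injective h1

/-- with unique square roots the loop is Moufang: `th(b,q) = A(q,b)` -/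
theorem Th_eq_Aq (hsq : ∀ y z, L y y = L z z → y = z) (b q : Q) :
    Th L J b q = Aq L q b := by
  have s1 : ∀ b w y, Th L J b w y = Aq L (L w (L y y)) b y := by
    intro b w y
    apply hsq
    rw [← h.hmul (h.Th_mem b w) (h.Th_e b w), ← h.hmul (h.Aq_mem _ b) (h.Aq_e _ b)]
    exact h.P8 hK b w (L y y)
  have s2 : ∀ b v y, Th L J b (L v (J y)) y = Th L J b v y := by
    intro b v y
    rw [s1, h.P8 hK b v y, ← h.ralt hK (L v (J y)) y, h.Rinv_app hK]
  ext y
  have h1 := s2 b (L q y) y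
  rw [h.Rinv_app' hK] at h1
  rw [h1, ← h.P5 hK]

/-- middle Moufang identity -/
theorem mid_moufang (hsq : ∀ y z, L y y = L z z → y = z) (q b x : Q) :
    L (L q b) (L x q) = L q (L (L b x) q) := by
  obtain ⟨A, hA⟩ : ∃ A, A = Aq L q b := ⟨_, rfl⟩
  have hAG : A ∈ G := by rw [hA]; exact h.Aq_mem q b
  have hAe : A e = e := by rw [hA]; exact h.Aq_e q b
  have hAq : A q = q := by rw [hA]; exact h.Aq_q q b
  have c1 : A * Rt L J q = Rt L J q * A := h.comR hAG hAe hAq
  have c2 : Th L J b q = A := by rw [hA]; exact h.Th_eq_Aq hK hsq b q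
  have e1 : L b * Rt L J q = Rt L J q * L b * A := by
    rw [← c2]; unfold Th; group
  have e2 : L (L q b) * A = L q * L b := by rw [hA]; unfold Aq; group
  have e3 : L (L q b) * Rt L J q = L q * (Rt L J q * L b) := by
    have h1 : L (L q b) * Rt L J q * A = L q * (Rt L J q * L b) * A := by
      calc L (L q b) * Rt L J q * A = L (L q b) * (A * Rt L J q) := by rw [c1]; group
        _ = L (L q b) * A * Rt L J q := by group
        _ = L q * (L b * Rt L J q) := by rw [e2]; group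
        _ = _ := by rw [e1]; group
    exact mul_right_cancel h1
  have h2 := congrArg (fun p : Perm Q => p x) e3
  simp only [Perm.mul_apply] at h2
  rw [h.Rt_app, h.Rt_app] at h2
  exact h2

/-- left Moufang identity in autotopic form -/
theorem left_moufang (hsq : ∀ y z, L y y = L z z → y = z) (q z y : Q) :
    L q (L z y) = L (L q (L z q)) ((L q)⁻¹ y) := by
  -- `x = y⁻¹`, `b = z y`
  have h1 := h.mid_moufang hK hsq q (L z y) (J y)
  rw [h.Rinv_app' hK] at h1
  -- h1 : (q (z y)) (y⁻¹ q) = q (z q)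
  have h2 := h.Rinv_app' hK (L q (L z y)) (L (J y) q)
  rw [h1] at h2
  -- h2 : (q (z q)) (J (y⁻¹ q)) = q (z y)
  rw [← h2, h.aaip, h.JJ, h.LJinv hK]

/-- the element `n = q⁻¹ (b⁻¹ (q b))` is in the middle nucleus -/
theorem comm_mid (hsq : ∀ y z, L y y = L z z → y = z) (q b : Q) (X Y : Q) :
    L (L X ((L q)⁻¹ ((L b)⁻¹ (L q b)))) Y = L X (L ((L q)⁻¹ ((L b)⁻¹ (L q b))) Y) := by
  obtain ⟨A, hA⟩ : ∃ A, A = Aq L q b := ⟨_, rfl⟩
  have hAG : A ∈ G := by rw [hA]; exact h.Aq_mem q b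
  have hAe : A e = e := by rw [hA]; exact h.Aq_e q b
  have hAq : A q = q := by rw [hA]; exact h.Aq_q q b
  have hAb : A b = b := by rw [hA]; exact h.Aq_b hK q b
  have e2 : L (L q b) * A = L q * L b := by rw [hA]; unfold Aq; group
  obtain ⟨m, hm⟩ : ∃ m, m = L q b := ⟨_, rfl⟩
  have hAm : A m = m := by rw [hm, h.hmul hAG hAe, hAq, hAb]
  -- `U q = L_q R_q`
  have hU : ∀ q z y, L q (L z y) = L ((L q * Rt L J q) z) ((L q)⁻¹ y) := by
    intro q z y
    rw [Perm.mul_apply, h.Rt_app]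
    exact h.left_moufang hK hsq q z y
  have key : ∀ x y, L ((L m * Rt L J m) (A x)) ((L m)⁻¹ (A y)) =
      L ((L q * Rt L J q) ((L b * Rt L J b) x)) ((L q)⁻¹ ((L b)⁻¹ y)) := by
    intro x y
    rw [← hU, ← hU, ← hU, ← h.hmul hAG hAe]
    have := congrArg (fun p : Perm Q => p (L x y)) e2
    simp only [Perm.mul_apply] at this
    rw [← hm] at this
    exact this
  -- `Φ`, `Ψ`
  obtain ⟨Φ, hΦ⟩ : ∃ Φ : Perm Q, Φ = (L q * Rt L J q) * (L b * Rt L J b) * A⁻¹ *
    (L m * Rt L J m)⁻¹ := ⟨_, rfl⟩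
  obtain ⟨Ψ, hΨ⟩ : ∃ Ψ : Perm Q, Ψ = (L q)⁻¹ * (L b)⁻¹ * A⁻¹ * L m := ⟨_, rfl⟩
  have k2 : ∀ X Y, L X Y = L (Φ X) (Ψ Y) := by
    intro X Y
    have h1 := key (A⁻¹ ((L m * Rt L J m)⁻¹ X)) (A⁻¹ (L m Y))
    rw [apply_inv', apply_inv', apply_inv', inv_apply'] at h1
    rw [h1, hΦ, hΨ]
    simp only [Perm.mul_apply]
  obtain ⟨n, hn⟩ : ∃ n, n = (L q)⁻¹ ((L b)⁻¹ (L q b)) := ⟨_, rfl⟩
  have hΨe : Ψ e = n := by
    have h1 : A⁻¹ m = m := by rw [Perm.inv_eq_iff_eq, hAm]
    rw [hΨ, hn]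
    simp only [Perm.mul_apply]
    rw [h.Le, h1, hm]
  have hΦX : ∀ X, Φ X = L X (J n) := by
    intro X
    have h1 := k2 X e
    rw [h.Le, hΨe] at h1
    have h2 := h.Rinv_app' hK (Φ X) n
    rw [← h1] at h2
    exact h2.symm
  have hΨY : ∀ Y, Ψ Y = L n Y := by
    intro Y
    have h1 := k2 e Y
    rw [h.Le1, hΦX, h.Le1, Perm.one_apply, Perm.one_apply, h.LJinv hK] at h1
    have h2 : L n Y = L n ((L n)⁻¹ (Ψ Y)) := congrArg (fun y => L n y) h1
    rw [apply_inv'] at h2
    exact h2.symm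
  rw [← hn]
  have h3 := k2 (L X n) Y
  rw [hΦX, hΨY, h.Rinv_app' hK] at h3
  exact h3

end AL0

namespace AL

/-- squares are unique -/
theorem sq_inj [Finite Q] (h : AL G L J e) (hfix : ∀ x, J x = x → x = e)
    (hK : ∀ a b, Th L J a b b = b) (y z : Q) (hyz : L y y = L z z) : y = z := by
  have h0 := h.al0
  have hL : L y * L y = L z * L z := by rw [← h0.Lsq hK, ← h0.Lsq hK, hyz]
  have hR : ∀ x, Rt L J x = J * (L x)⁻¹ * J := by
    intro x
    unfold Rt
    rw [h0.LJinv hK]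
  have hP : ∀ x, D L J x * D L J e = L x * Rt L J x := by
    intro x
    have h1 : D L J e = J := by
      unfold D; rw [h0.Le1]; simp
    rw [h1, hR]
    unfold D
    group
  have hPP : ∀ x, (L x * Rt L J x) * (L x * Rt L J x) = (L x * L x) * (J * (L x * L x)⁻¹ * J) := by
    intro x
    have hf := h0.flex x
    calc (L x * Rt L J x) * (L x * Rt L J x) = L x * (Rt L J x * L x) * Rt L J x := by group
      _ = (L x * L x) * (Rt L J x * Rt L J x) := by rw [← hf]; group
      _ = (L x * L x) * ((J * (L x)⁻¹ * J) * (J * (L x)⁻¹ * J)) := by rw [hR]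
      _ = (L x * L x) * (J * (L x)⁻¹ * (J * J) * (L x)⁻¹ * J) := by group
      _ = _ := by rw [h0.JJ1]; group
  have hE : (L y * Rt L J y) * (L y * Rt L J y) = (L z * Rt L J z) * (L z * Rt L J z) := by
    rw [hPP, hPP, hL]
  obtain ⟨n, hn, hn1⟩ := h.odd_DD hfix y e
  obtain ⟨m, hm, hm1⟩ := h.odd_DD hfix z e
  rw [hP] at hn1 hm1
  obtain ⟨k, hk⟩ : Odd (n * m) := hn.mul hm
  have e1 : (L y * Rt L J y) ^ (n * m) = 1 := by rw [pow_mul, hn1, one_pow]
  have e2 : (L z * Rt L J z) ^ (n * m) = 1 := by rw [mul_comm n m, pow_mul, hm1, one_pow]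
  have e3 : L y * Rt L J y = L z * Rt L J z := by
    have f : ∀ P : Perm Q, P ^ (n * m) = 1 → P = (P * P) ^ (k + 1) := by
      intro P hP1
      have : (P * P) ^ (k + 1) = P ^ (n * m) * P := by
        rw [← pow_two, ← pow_mul, hk, ← pow_succ]; congr 1
      rw [this, hP1, one_mul]
    rw [f _ e1, f _ e2, hE]
  have e4 : D L J y = D L J z := by
    have h1 : D L J y * D L J e = D L J z * D L J e := by rw [hP, hP, e3]
    exact mul_right_cancel h1
  have e5 : D L J y y = y := by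
    unfold D
    rw [Perm.mul_apply, Perm.mul_apply]
    have : (L y)⁻¹ y = e := by rw [Perm.inv_eq_iff_eq, h.Le]
    rw [this, h.Je, h.Le]
  rw [e4] at e5
  unfold D at e5
  rw [Perm.mul_apply, Perm.mul_apply] at e5
  have e6 : J ((L z)⁻¹ y) = (L z)⁻¹ y := by
    rw [eq_comm, Perm.inv_eq_iff_eq]
    exact e5.symm
  have e7 := hfix _ e6
  rw [Perm.inv_eq_iff_eq, h.Le] at e7
  exact e7

/-- **END GAME**: if `th(a, b)` fixes `b` for all `a, b`, the loop is associative -/
theorem end_game [Finite Q] (h : AL G L J e) (hfix : ∀ x, J x = x → x = e)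
    (hK : ∀ a b, Th L J a b b = b) : Assoc L := by
  have h0 := h.al0
  have hsq := h.sq_inj hfix hK
  by_cases hc : ∀ q b, (L q)⁻¹ ((L b)⁻¹ (L q b)) = e
  · refine h.comm_assoc ?_
    intro q
    rw [h0.JLJ]
    ext b
    rw [h0.Rt_app]
    have h1 := hc b (J q)
    rw [Perm.inv_eq_iff_eq, Perm.inv_eq_iff_eq, h.Le] at h1
    exact h1
  · push Not at hc
    obtain ⟨q, b, hqb⟩ := hc
    exact h.assoc_of_mid hqb (fun X Y => h0.comm_mid hK hsq q b X Y)

end AL

end ALoop
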